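import Pool.Agent.Q81.Hs8

/-!
# MP_1d723d_an, Q1 (disproved)

The two-sided comparison `c_n ‖A‖_{H⁴} ≤ ‖A‖_{H¹_*} ≤ ‖A‖_{H⁴}` (all `n > 2`, all real `n × n`
matrices `A`) is false: its left-hand inequality fails for `n = 7` and a suitable positive
diagonal matrix `A`.
-/

open Real Set MeasureTheory Metric

namespace Pool.Agent.Results.MP_1d723d_an.LowerFailsDim7

noncomputable section

/-- the action of a matrix on the Euclidean space -/
def act {n : ℕ} (A : Matrix (Fin n) (Fin n) ℝ) (x : EuclideanSpace ℝ (Fin n)) :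
    EuclideanSpace ℝ (Fin n) := WithLp.toLp 2 (A.mulVec x.ofLp)

/-- average of `F` over the unit sphere of `ℝⁿ` with respect to normalized surface measure
(`μ.toSphere` is the surface measure, `⨍` divides by its total mass) -/
def sphereAvg (n : ℕ) (F : EuclideanSpace ℝ (Fin n) → ℝ) : ℝ :=
  ⨍ x : sphere (0 : EuclideanSpace ℝ (Fin n)) 1, F x
    ∂((volume : Measure (EuclideanSpace ℝ (Fin n))).toSphere)

/-- `‖A‖_{H^p} = (E_x |Ax|^p)^{1/p}` -/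
def hNorm {n : ℕ} (p : ℝ) (A : Matrix (Fin n) (Fin n) ℝ) : ℝ :=
  (sphereAvg n fun x => ‖act A x‖ ^ p) ^ (1 / p)

/-- the inner product `(1/n) tr (Aᵀ B)` -/
def hInner {n : ℕ} (A B : Matrix (Fin n) (Fin n) ℝ) : ℝ := (1 / n) * (A.transpose * B).trace

/-- the set whose supremum is `‖A‖_{H^1_*}` -/
def dualSet {n : ℕ} (A : Matrix (Fin n) (Fin n) ℝ) : Set ℝ :=
  {s | ∃ B : Matrix (Fin n) (Fin n) ℝ, hNorm 1 B ≤ 1 ∧ s = hInner A B}

/-- `‖A‖_{H^1_*}` -/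
def dualNorm {n : ℕ} (A : Matrix (Fin n) (Fin n) ℝ) : ℝ := sSup (dualSet A)

/-- `c_n` -/
def cconst (n : ℕ) : ℝ :=
  (2 : ℝ) ^ (5 / 4 : ℝ) / √π * (Real.Gamma (((n : ℝ) + 1) / 2) / Real.Gamma ((n : ℝ) / 2)) *
    (((n : ℝ) + 2) ^ (1 / 4 : ℝ) / (n : ℝ) ^ (3 / 4 : ℝ))

/-- There are `n > 2` (namely `n = 7`) and a real `n × n` matrix `A` with
`‖A‖_{H^1_*} < c_n ‖A‖_{H^4}` (the supremum defining `‖A‖_{H^1_*}` being finite). -/
theorem result : ∃ n : ℕ, 2 < n ∧ ∃ A : Matrix (Fin n) (Fin n) ℝ,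
    BddAbove (dualSet A) ∧ dualNorm A < cconst n * hNorm 4 A :=
  ⟨7, by norm_num, Pool.Agent.Q81.Hs.AA, Pool.Agent.Q81.Hs.main⟩

end

end Pool.Agent.Results.MP_1d723d_an.LowerFailsDim7
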